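import Pool.Agent.Run7.h570.AJ.Lef

/-!
# Bloch-Beilinson filtrations with F^2 = ker AJ and the Lefschetz standard conjecture

`𝒱` is a class of complex smooth proper varieties which is closed under products (for instance all
smooth projective varieties), `C` is the theory of the Chow groups with rational coefficients on `𝒱`, `H`
is the singular cohomology with rational coefficients, and `J` is the theory of the Abel-Jacobi maps;
only their formal properties, which are collected in `IsChowProj`, `IsWeilProj` and `IsAJ`, are used.
`IsBB` are the conditions 1-4 of the problem, `F^2` being equal to the kernel of the Abel-Jacobi map.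
`S` and `S'` are sets of varieties: each variety of `𝒱` is dominated by a member of `S`, and by an
even-dimensional member of `S'` of at least twice the dimension. We assume the Lefschetz standard
conjecture (type B) for the members of `S`. It is known if `S` consists of products of curves, surfaces
and abelian varieties, and `𝒱` of the varieties dominated by such products: in this case nothing is
assumed.

The following are equivalent:

1. There is a Bloch-Beilinson filtration, that is, a system of filtrations for all varieties of `𝒱`
   simultaneously which satisfies the conditions 1-4.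
2. (`IsLocalSep`) Each single variety `P` in `S` has filtrations of its own Chow groups with
   `F^0 = CH^i(P)`, `F^1 = CH^i(P)_hom`, `F^2 = ker AJ`, `⋂ F^n = 0` (instead of `F^(i+1) = 0`), and
   `ε_* F^n CH^i(P) ⊆ F^(n+1) CH^i(P)` for all `ε ∈ CH^(dim P)(P × P)` which are zero on `H^(2i-n)(P)`.
3. (`LocNilBelow`) For `P` in `S`, all `i`, each single `ε ∈ CH^(dim P)(P × P)` which is zero on
   `H^m(P)` for all `m < 2 i - 1`, and each `x ∈ CH^i(P)` in the kernel of the Abel-Jacobi map there is
   an `n` with `ε^n_* x = 0`.
4. (`LocNilMid`) The same for cycles of middle codimension on varieties `P` in `S'`: `dim P = 2 i`.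

So the negated form of the question means by 4: there are one variety `P` of even dimension `2 i` in
`S'`, one `ε ∈ CH^(2i)(P × P)` which is zero on `H^m(P)` for all `m ≤ 2 i - 2`, and one class `x` of
middle codimension in the kernel of the Abel-Jacobi map such that all `ε^n_* x` are different from zero.
In comparison with `SingleCorrespondences`, the Künneth standard conjecture does not appear in the
conditions 2-4 (for all varieties it follows from the Lefschetz standard conjecture for the members of
`S`), the vanishing on the cohomology in degrees less than `i` may be assumed in 3, the length of the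
filtrations need not be known in 2, and only cycles of middle codimension appear in 4.

## Proof

If `Λ` is a left inverse of `D^(d-m)` on `H^m(P)`, then `Λ D^(d-m)` is zero on `CH^i(P)` for `m < i`,
`d = dim P`. So `π_m` is zero on `CH^i(P)`, `m < i`, if homologically trivial correspondences are
nilpotent; and `1 - Λ D^(d-m)` maps `F^n CH^i(P)` identically to `F^(n+1) CH^i(P)` if
`2 i - n = m < i`, so that `F^(i+1) = F^(i+2) = ⋯ = 0` in 2. `4 ⟹ 3`: replace `x ∈ CH^i(X)` by
`h^(n-i) f^* x ∈ CH^n(P)`, `dim P = 2 n`, and `ε` by `h^(n-i) f^* ε f_* (h^(n+i-dim X) ·)`; it is zero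
on `H^m(P)` for `m < 2 n - 1`. `3 ⟹ 1`: the square of a homologically trivial self-correspondence `γ`
of `P` is in the kernel of the Abel-Jacobi map of `P × P`, so `γ` is nilpotent, and there is a
Chow-Künneth decomposition. By 3 for `P` and `P × P`, `π_m` is zero on the kernel of the Abel-Jacobi map
in `CH^i(P)` for `m ≥ 2 i - 1`, and all correspondences are triangular; so the condition 4 of
`SingleCorrespondences` holds.
-/

set_option autoImplicit false

open Pool.Agent.H914 Pool.Agent.H914.VarClass Pool.Agent.H914.VarClass.Obj
open Pool.Agent.W492.BB hiding IsBB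
open Pool.Agent.TH133 Run7.h460.BB
open Pool.Agent.Run7.h570.AJ

universe v

namespace Pool.Agent.Results.MP_08891c_ag.LefschetzMiddle

/-- **Criteria for the existence of a Bloch-Beilinson filtration with `F^2 = ker AJ` under the
Lefschetz standard conjecture.** -/
theorem result {𝒱 : VarClass ℂ} {C : TheoryData.{0, v, 0} 𝒱 ℚ} {H : WeilTheoryData.{0, v, 0} C ℚ}
    [IsChowProj C] [IsWeilProj H] (J : AJData H) [IsAJ J] (S : Set 𝒱.Obj)
    (hS : ∀ X : 𝒱.Obj, ∃ P ∈ S, Dominates C P X)
    (hB : ∀ P ∈ S, LefschetzB H P) (S' : Set 𝒱.Obj)
    (hS' : ∀ X : 𝒱.Obj, ∃ P ∈ S', ∃ n : ℕ, P.dim = 2 * n ∧ X.dim ≤ n ∧ PolDominates C P X) :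
    [∃ F : Filtration C, IsBB J F,
      ∀ P ∈ S, ∃ G : Filtration C, IsLocalSep J P G,
      ∀ P ∈ S, LocNilBelow J P,
      ∀ P ∈ S', LocNilMid J P].TFAE :=
  criterionB S hS hB S' hS'

end Pool.Agent.Results.MP_08891c_ag.LefschetzMiddle
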